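import Pool.Agent.W996.EC.Stm

/-!
# EC-CROSS: tools (linear functionals, substitutions, determining sets)
-/

set_option autoImplicit false

namespace Pool.Agent.W177.EC

open MvPolynomial Filter Topology Pool.Agent.W996.EC

variable {n : ℕ}

/-- the exponents all of whose entries are at most `d` -/
noncomputable def box (n d : ℕ) : Finset (Fin n →₀ ℕ) :=
  Finset.Iic (Finsupp.equivFunOnFinite.symm fun _ : Fin n => d)

theorem support_subset {p : MvPolynomial (Fin n) ℂ} {d : ℕ} (h : p.totalDegree ≤ d) :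
    p.support ⊆ box n d := by
  intro m hm
  rw [box, Finset.mem_Iic]
  intro i
  have h1 := (le_totalDegree hm).trans h
  rw [Finsupp.sum_fintype _ _ (fun _ => rfl)] at h1
  exact (Finset.single_le_sum (f := fun i => m i) (fun _ _ => Nat.zero_le _)
    (Finset.mem_univ i)).trans h1

theorem lin_eq (L : MvPolynomial (Fin n) ℂ →ₗ[ℂ] ℂ) {p : MvPolynomial (Fin n) ℂ} {d : ℕ}
    (h : p.totalDegree ≤ d) : L p = ∑ m ∈ box n d, coeff m p * L (monomial m 1) := by
  conv_lhs => rw [← support_sum_monomial_coeff p]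
  rw [map_sum]
  have h1 : ∀ m, L (monomial m (coeff m p)) = coeff m p * L (monomial m 1) := by
    intro m
    have : (monomial m (coeff m p) : MvPolynomial (Fin n) ℂ) = coeff m p • monomial m 1 := by
      rw [smul_monomial, smul_eq_mul, mul_one]
    rw [this, map_smul, smul_eq_mul]
  rw [Finset.sum_congr rfl fun m _ => h1 m]
  refine Finset.sum_subset (support_subset h) fun m _ hm => ?_
  rw [notMem_support_iff.1 hm, zero_mul]

theorem lin_tendsto {p : ℕ → MvPolynomial (Fin n) ℂ} {q : MvPolynomial (Fin n) ℂ}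
    (h : Conv p q) (L : MvPolynomial (Fin n) ℂ →ₗ[ℂ] ℂ) :
    Tendsto (fun j => L (p j)) atTop (𝓝 (L q)) := by
  obtain ⟨⟨d, hd⟩, hc⟩ := h
  have h1 : ∀ j, L (p j) = ∑ m ∈ box n (max d q.totalDegree), coeff m (p j) * L (monomial m 1) :=
    fun j => lin_eq L ((hd j).trans (le_max_left _ _))
  rw [lin_eq L (le_max_right d q.totalDegree)]
  simp only [h1]
  exact tendsto_finsetSum _ fun m _ => (hc m).mul_const _

/-- the polynomial in the first variable, the others being fixed -/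
noncomputable def ev (y : Fin n → ℂ) (F : MvPolynomial (Fin (n + 1)) ℂ) : Polynomial ℂ :=
  Polynomial.map (eval y) (finSuccEquiv ℂ n F)

theorem ev_eval (y : Fin n → ℂ) (t : ℂ) (F : MvPolynomial (Fin (n + 1)) ℂ) :
    (ev y F).eval t = eval (Fin.cons t y) F :=
  (eval_eq_eval_mv_eval' y t F).symm

theorem ev_coeff (y : Fin n → ℂ) (F : MvPolynomial (Fin (n + 1)) ℂ) (i : ℕ) :
    (ev y F).coeff i = eval y ((finSuccEquiv ℂ n F).coeff i) := by
  rw [ev, Polynomial.coeff_map]

/-- a coefficient as a linear functional -/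
noncomputable def Lc (y : Fin n → ℂ) (i : ℕ) : MvPolynomial (Fin (n + 1)) ℂ →ₗ[ℂ] ℂ where
  toFun F := (ev y F).coeff i
  map_add' F G := by simp [ev]
  map_smul' c F := by
    rw [ev, ev, map_smul]
    simp [Polynomial.coeff_smul]

theorem Lc_apply (y : Fin n → ℂ) (i : ℕ) (F : MvPolynomial (Fin (n + 1)) ℂ) :
    Lc y i F = (ev y F).coeff i := rfl

theorem totalDegree_bind₁_le {σ τ : Type*} [Fintype σ] (f : σ → MvPolynomial τ ℂ)
    (hf : ∀ i, (f i).totalDegree ≤ 1) (P : MvPolynomial σ ℂ) :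
    (bind₁ f P).totalDegree ≤ P.totalDegree := by
  rw [bind₁, aeval_def, eval₂_eq']
  refine totalDegree_finsetSum_le fun m hm => ?_
  refine (totalDegree_mul _ _).trans ?_
  rw [show (algebraMap ℂ (MvPolynomial τ ℂ)) (coeff m P) = C (coeff m P) from rfl,
    totalDegree_C, zero_add]
  refine (totalDegree_finsetProd _ _).trans ?_
  have h1 : ∀ i ∈ Finset.univ, ((f i) ^ m i).totalDegree ≤ m i := by
    intro i _
    refine (totalDegree_pow _ _).trans ?_
    calc m i * _ ≤ m i * 1 := Nat.mul_le_mul_left _ (hf i)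
      _ = m i := mul_one _
  refine (Finset.sum_le_sum h1).trans ?_
  have h3 := le_totalDegree hm
  rwa [Finsupp.sum_fintype _ _ (fun _ => rfl)] at h3

theorem eval_bind {σ τ : Type*} (f : σ → MvPolynomial τ ℂ) (x : τ → ℂ) (P : MvPolynomial σ ℂ) :
    eval x (bind₁ f P) = eval (fun i => eval x (f i)) P := by
  rw [← MvPolynomial.coe_aeval_eq_eval, ← MvPolynomial.coe_aeval_eq_eval]
  simp only [RingHom.coe_coe]
  rw [MvPolynomial.aeval_bind₁]

/-- the substitution `x = b + y + (t - m.y) v0` -/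
noncomputable def sub (b : Fin n → ℂ) (m v0 : Fin n → ℤ) (i : Fin n) :
    MvPolynomial (Fin (n + 1)) ℂ :=
  C (b i) + X (Fin.succ i) + C (v0 i : ℂ) * (X 0 - ∑ k, C (m k : ℂ) * X (Fin.succ k))

theorem sub_deg (b : Fin n → ℂ) (m v0 : Fin n → ℤ) (i : Fin n) :
    (sub b m v0 i).totalDegree ≤ 1 := by
  unfold sub
  have hX : ∀ j : Fin (n + 1), (X j : MvPolynomial (Fin (n + 1)) ℂ).totalDegree ≤ 1 :=
    fun j => (totalDegree_X j).le
  refine (totalDegree_add _ _).trans (max_le ((totalDegree_add _ _).trans (max_le ?_ ?_)) ?_)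
  · rw [totalDegree_C]; exact Nat.zero_le _
  · exact hX _
  · refine (totalDegree_mul _ _).trans ?_
    rw [totalDegree_C, zero_add]
    refine (totalDegree_sub _ _).trans (max_le (hX _) ?_)
    refine totalDegree_finsetSum_le fun k _ => ?_
    refine (totalDegree_mul _ _).trans ?_
    rw [totalDegree_C, zero_add]
    exact hX _

theorem eval_sub (b : Fin n → ℂ) (m v0 : Fin n → ℤ) (p : MvPolynomial (Fin n) ℂ) (t : ℂ)
    (y : Fin n → ℂ) : eval (Fin.cons t y) (bind₁ (sub b m v0) p) =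
      eval (fun i => b i + y i + (v0 i : ℂ) * (t - ∑ k, (m k : ℂ) * y k)) p := by
  rw [eval_bind]
  congr 1
  congr 1
  funext i
  simp [sub]

/-- the substitution `t = κ t'`, `y = y' + u` -/
noncomputable def aff (κ : ℂ) (u : Fin n → ℂ) : Fin (n + 1) → MvPolynomial (Fin (n + 1)) ℂ :=
  Fin.cons (C κ * X 0) fun i => X (Fin.succ i) + C (u i)

theorem aff_deg (κ : ℂ) (u : Fin n → ℂ) (i : Fin (n + 1)) : (aff κ u i).totalDegree ≤ 1 := by
  have hX : ∀ j : Fin (n + 1), (X j : MvPolynomial (Fin (n + 1)) ℂ).totalDegree ≤ 1 :=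
    fun j => (totalDegree_X j).le
  refine Fin.cases ?_ (fun i => ?_) i
  · show (C κ * X 0 : MvPolynomial (Fin (n + 1)) ℂ).totalDegree ≤ 1
    refine (totalDegree_mul _ _).trans ?_
    rw [totalDegree_C, zero_add]
    exact hX _
  · show (X (Fin.succ i) + C (u i) : MvPolynomial (Fin (n + 1)) ℂ).totalDegree ≤ 1
    refine (totalDegree_add _ _).trans (max_le (hX _) ?_)
    rw [totalDegree_C]
    exact Nat.zero_le _

theorem eval_aff (κ : ℂ) (u : Fin n → ℂ) (K : MvPolynomial (Fin (n + 1)) ℂ) (t : ℂ)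
    (y : Fin n → ℂ) : eval (Fin.cons t y) (bind₁ (aff κ u) K) =
      eval (Fin.cons (κ * t) fun i => y i + u i) K := by
  rw [eval_bind]
  congr 1
  congr 1
  funext i
  refine Fin.cases ?_ (fun i => ?_) i
  · simp [aff]
  · simp [aff]

theorem ev_aff (κ : ℂ) (u : Fin n → ℂ) (K : MvPolynomial (Fin (n + 1)) ℂ) (y : Fin n → ℂ) :
    ev y (bind₁ (aff κ u) K) =
      (ev (fun i => y i + u i) K).comp (Polynomial.C κ * Polynomial.X) := by
  refine Polynomial.funext fun t => ?_
  rw [ev_eval, eval_aff, Polynomial.eval_comp, ev_eval]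
  simp

theorem ev_aff_coeff (κ : ℂ) (u : Fin n → ℂ) (K : MvPolynomial (Fin (n + 1)) ℂ)
    (y : Fin n → ℂ) (i : ℕ) : (ev y (bind₁ (aff κ u) K)).coeff i =
      eval (fun i => y i + u i) ((finSuccEquiv ℂ n K).coeff i) * κ ^ i := by
  rw [ev_aff, Polynomial.comp_C_mul_X_coeff, ev_coeff]

/-- the grid is a determining set -/
theorem det (τ : ℕ → ℂ) (hτ : Function.Injective τ) {D : ℕ} {P : MvPolynomial (Fin n) ℂ}
    (hP : P ≠ 0) (hD : P.totalDegree ≤ D) :
    ∃ k : Fin n → Fin (D + 1), eval (fun i => τ (k i)) P ≠ 0 := by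
  by_contra hcon
  push Not at hcon
  apply hP
  refine eq_zero_of_eval_zero_at_prod_finset P (fun _ => (Finset.range (D + 1)).image τ)
    (fun i => ?_) fun x hx => ?_
  · rw [Finset.card_image_of_injective _ hτ, Finset.card_range]
    exact Nat.lt_succ_of_le ((degreeOf_le_totalDegree P i).trans hD)
  · have h1 : ∀ i, ∃ k : Fin (D + 1), τ k = x i := by
      intro i
      obtain ⟨k, hk, hk'⟩ := Finset.mem_image.1 (hx i)
      exact ⟨⟨k, Finset.mem_range.1 hk⟩, hk'⟩
    choose k hk using h1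
    have := hcon k
    simp only [hk] at this
    exact this

/-- `|Q(x)| e^{ρ x} → 0` as `x → -∞` -/
theorem poly_exp (Q : Polynomial ℂ) {ρ : ℝ} (hρ : 0 < ρ) :
    Tendsto (fun x : ℝ => Q.eval (x : ℂ) * (Real.exp (ρ * x) : ℂ)) atBot (𝓝 0) := by
  induction Q using Polynomial.induction_on' with
  | add P Q hP hQ =>
    have := hP.add hQ
    rw [add_zero] at this
    refine this.congr fun x => ?_
    rw [Polynomial.eval_add]
    ring
  | monomial k c =>
    have h1 := Real.tendsto_pow_mul_exp_neg_atTop_nhds_zero k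
    have h2 : Tendsto (fun x : ℝ => -(ρ * x)) atBot atTop := by
      rw [tendsto_neg_atTop_iff]
      exact tendsto_id.const_mul_atBot hρ
    have h3 := h1.comp h2
    have h4 : Tendsto (fun x : ℝ => ‖c‖ * (ρ⁻¹) ^ k * |((fun x => x ^ k * Real.exp (-x)) ∘
        fun x => -(ρ * x)) x|) atBot (𝓝 0) := by
      have := (h3.abs).const_mul (‖c‖ * (ρ⁻¹) ^ k)
      rwa [abs_zero, mul_zero] at this
    rw [tendsto_zero_iff_norm_tendsto_zero]
    refine h4.congr fun x => ?_
    simp only [Function.comp, neg_neg, Polynomial.eval_monomial, norm_mul, norm_pow,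
      Complex.norm_real, Real.norm_eq_abs, abs_mul, abs_pow, abs_neg, abs_of_pos hρ,
      abs_of_pos (Real.exp_pos _)]
    rw [mul_pow]
    have : ρ⁻¹ ^ k * ρ ^ k = 1 := by rw [← mul_pow, inv_mul_cancel₀ hρ.ne', one_pow]
    calc ‖c‖ * ρ⁻¹ ^ k * (ρ ^ k * |x| ^ k * Real.exp (ρ * x))
        = ‖c‖ * (ρ⁻¹ ^ k * ρ ^ k) * |x| ^ k * Real.exp (ρ * x) := by ring
      _ = ‖c‖ * |x| ^ k * Real.exp (ρ * x) := by rw [this]; ring

/-- a nonzero polynomial is bounded below near `-∞` -/
theorem poly_low (Q : Polynomial ℂ) (hQ : Q ≠ 0) :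
    ∃ c : ℝ, 0 < c ∧ ∀ᶠ x : ℝ in atBot, c ≤ ‖Q.eval (x : ℂ)‖ := by
  by_cases hd : 0 < Q.degree
  · refine ⟨1, one_pos, ?_⟩
    have h1 : Tendsto (fun x : ℝ => ‖(x : ℂ)‖) atBot atTop := by
      simp only [Complex.norm_real, Real.norm_eq_abs]
      exact tendsto_abs_atBot_atTop
    exact (Q.tendsto_norm_atTop hd h1).eventually_ge_atTop 1
  · rw [not_lt] at hd
    rw [Polynomial.eq_C_of_degree_le_zero hd] at hQ ⊢
    refine ⟨‖Q.coeff 0‖, norm_pos_iff.2 fun h => hQ (by rw [h, Polynomial.C_0]), ?_⟩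
    refine Eventually.of_forall fun x => ?_
    simp

/-- `x ↦ P (y + x a)` is a polynomial -/
noncomputable def lineP (y a : Fin n → ℂ) (P : MvPolynomial (Fin n) ℂ) : Polynomial ℂ :=
  aeval (fun l => Polynomial.C (y l) + Polynomial.C (a l) * Polynomial.X) P

theorem lineP_eval (y a : Fin n → ℂ) (P : MvPolynomial (Fin n) ℂ) (x : ℂ) :
    (lineP y a P).eval x = eval (fun l => y l + a l * x) P := by
  have h1 : ∀ Q : MvPolynomial (Fin n) ℂ, Polynomial.eval x (lineP y a Q) =
      aeval (fun l => y l + a l * x) Q := by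
    intro Q
    have := (MvPolynomial.comp_aeval_apply (fun l => Polynomial.C (y l) +
      Polynomial.C (a l) * Polynomial.X) (Polynomial.aeval x) Q)
    rw [← Polynomial.coe_aeval_eq_eval]
    rw [lineP]
    rw [this]
    congr 1
    congr 1
    funext l
    simp
  rw [h1, ← MvPolynomial.coe_aeval_eq_eval]
  rfl

end Pool.Agent.W177.EC
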