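import Pool.Agent.W177.EC.Api
import Pool.Agent.Helper202.Riemann

/-!
# EC-CROSS: the rational case (crossing argument)
-/

set_option autoImplicit false

namespace Pool.Agent.W177.EC

open MvPolynomial Filter Topology Pool.Agent.W996.EC

variable {n : ℕ}

/-- grid points -/
def gp {D : ℕ} (k : Fin n → Fin (D + 1)) : Fin n → ℂ := fun i => (((k i : Fin (D + 1)) : ℕ) : ℂ)

/-- size of the coefficients of degree `< e` in the first variable -/
noncomputable def lo (e D : ℕ) (F : MvPolynomial (Fin (n + 1)) ℂ) : ℝ :=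
  ∑ i ∈ Finset.range e, ∑ k : Fin n → Fin (D + 1), ‖(ev (gp k) F).coeff i‖

/-- size of the coefficients of degree `≥ e` in the first variable -/
noncomputable def hi (e D : ℕ) (F : MvPolynomial (Fin (n + 1)) ℂ) : ℝ :=
  ∑ i ∈ Finset.Ico e (D + 1), ∑ k : Fin n → Fin (D + 1), ‖(ev (gp k) F).coeff i‖

theorem lo_nonneg (e D : ℕ) (F : MvPolynomial (Fin (n + 1)) ℂ) : 0 ≤ lo e D F :=
  Finset.sum_nonneg fun _ _ => Finset.sum_nonneg fun _ _ => norm_nonneg _

theorem hi_nonneg (e D : ℕ) (F : MvPolynomial (Fin (n + 1)) ℂ) : 0 ≤ hi e D F :=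
  Finset.sum_nonneg fun _ _ => Finset.sum_nonneg fun _ _ => norm_nonneg _

theorem ev_smul (c : ℂ) (F : MvPolynomial (Fin (n + 1)) ℂ) (y : Fin n → ℂ) (i : ℕ) :
    (ev y (C c * F)).coeff i = c * (ev y F).coeff i := by
  rw [C_mul']
  exact (Lc y i).map_smul c F

theorem lo_smul (e D : ℕ) (c : ℂ) (F : MvPolynomial (Fin (n + 1)) ℂ) :
    lo e D (C c * F) = ‖c‖ * lo e D F := by
  simp only [lo, ev_smul, norm_mul, Finset.mul_sum]

theorem hi_smul (e D : ℕ) (c : ℂ) (F : MvPolynomial (Fin (n + 1)) ℂ) :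
    hi e D (C c * F) = ‖c‖ * hi e D F := by
  simp only [hi, ev_smul, norm_mul, Finset.mul_sum]

theorem lo_tendsto {n' : ℕ} {p : ℕ → MvPolynomial (Fin n') ℂ} {q : MvPolynomial (Fin n') ℂ}
    (h : Conv p q) (T : MvPolynomial (Fin n') ℂ →ₗ[ℂ] MvPolynomial (Fin (n + 1)) ℂ) (e D : ℕ) :
    Tendsto (fun j => lo e D (T (p j))) atTop (𝓝 (lo e D (T q))) :=
  tendsto_finsetSum _ fun i _ => tendsto_finsetSum _ fun k _ =>
    (lin_tendsto h ((Lc (gp k) i).comp T)).norm

theorem hi_tendsto {n' : ℕ} {p : ℕ → MvPolynomial (Fin n') ℂ} {q : MvPolynomial (Fin n') ℂ}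
    (h : Conv p q) (T : MvPolynomial (Fin n') ℂ →ₗ[ℂ] MvPolynomial (Fin (n + 1)) ℂ) (e D : ℕ) :
    Tendsto (fun j => hi e D (T (p j))) atTop (𝓝 (hi e D (T q))) :=
  tendsto_finsetSum _ fun i _ => tendsto_finsetSum _ fun k _ =>
    (lin_tendsto h ((Lc (gp k) i).comp T)).norm

theorem lo_hi_pos {e D : ℕ} {F : MvPolynomial (Fin (n + 1)) ℂ} (hF : F ≠ 0)
    (hD : F.totalDegree ≤ D) : 0 < lo e D F + hi e D F := by
  have h1 : finSuccEquiv ℂ n F ≠ 0 := by
    intro h
    exact hF ((finSuccEquiv ℂ n).injective (by rw [h, map_zero]))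
  obtain ⟨i, hi0⟩ : ∃ i, (finSuccEquiv ℂ n F).coeff i ≠ 0 := by
    by_contra hcon
    push Not at hcon
    exact h1 (Polynomial.ext fun i => by rw [hcon i, Polynomial.coeff_zero])
  have h2 := totalDegree_coeff_finSuccEquiv_add_le F i hi0
  obtain ⟨k, hk⟩ := det (fun k : ℕ => (k : ℂ)) Nat.cast_injective hi0 (D := D) (by omega)
  have h3 : 0 < ‖(ev (gp k) F).coeff i‖ := by
    rw [norm_pos_iff, ev_coeff]
    exact hk
  have hin : ∀ i, 0 ≤ ∑ k : Fin n → Fin (D + 1), ‖(ev (gp k) F).coeff i‖ :=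
    fun i => Finset.sum_nonneg fun _ _ => norm_nonneg _
  have h4 : 0 < ∑ k : Fin n → Fin (D + 1), ‖(ev (gp k) F).coeff i‖ :=
    lt_of_lt_of_le h3 (Finset.single_le_sum (f := fun k : Fin n → Fin (D + 1) =>
      ‖(ev (gp k) F).coeff i‖) (fun _ _ => norm_nonneg _) (Finset.mem_univ k))
  by_cases hie : i < e
  · have h5 : 0 < lo e D F := lt_of_lt_of_le h4 (Finset.single_le_sum
      (f := fun i => ∑ k : Fin n → Fin (D + 1), ‖(ev (gp k) F).coeff i‖) (fun i _ => hin i)
      (Finset.mem_range.2 hie))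
    linarith [hi_nonneg e D F]
  · have h5 : 0 < hi e D F := lt_of_lt_of_le h4 (Finset.single_le_sum
      (f := fun i => ∑ k : Fin n → Fin (D + 1), ‖(ev (gp k) F).coeff i‖) (fun i _ => hin i)
      (Finset.mem_Ico.2 ⟨by omega, by omega⟩))
    linarith [lo_nonneg e D F]

theorem exists_of_lo {e D : ℕ} {F : MvPolynomial (Fin (n + 1)) ℂ} (h : 0 < lo e D F) :
    ∃ i, i < e ∧ (finSuccEquiv ℂ n F).coeff i ≠ 0 := by
  obtain ⟨i, h1, h2⟩ := Finset.exists_ne_zero_of_sum_ne_zero h.ne'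
  obtain ⟨k, _, h3⟩ := Finset.exists_ne_zero_of_sum_ne_zero h2
  refine ⟨i, Finset.mem_range.1 h1, fun h0 => h3 ?_⟩
  rw [ev_coeff, h0, map_zero, norm_zero]

theorem exists_of_hi {e D : ℕ} {F : MvPolynomial (Fin (n + 1)) ℂ} (h : 0 < hi e D F) :
    ∃ i, e ≤ i ∧ i < D + 1 ∧ (finSuccEquiv ℂ n F).coeff i ≠ 0 := by
  obtain ⟨i, h1, h2⟩ := Finset.exists_ne_zero_of_sum_ne_zero h.ne'
  obtain ⟨k, _, h3⟩ := Finset.exists_ne_zero_of_sum_ne_zero h2
  refine ⟨i, (Finset.mem_Ico.1 h1).1, (Finset.mem_Ico.1 h1).2, fun h0 => h3 ?_⟩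
  rw [ev_coeff, h0, map_zero, norm_zero]

/-- the family of scaled and translated polynomials -/
noncomputable def Fx (μ : ℂ) (r : ℕ) (a : Fin n → ℝ) (K : MvPolynomial (Fin (n + 1)) ℂ)
    (x : ℝ) : MvPolynomial (Fin (n + 1)) ℂ :=
  bind₁ (aff (μ * (Real.exp (r * x) : ℂ)) fun i => (a i : ℂ) * (x : ℂ)) K

theorem Fx_coeff (μ : ℂ) (r : ℕ) (a : Fin n → ℝ) (K : MvPolynomial (Fin (n + 1)) ℂ) (x : ℝ)
    (y : Fin n → ℂ) (i : ℕ) : (ev y (Fx μ r a K x)).coeff i =
      (lineP y (fun i => (a i : ℂ)) ((finSuccEquiv ℂ n K).coeff i)).eval (x : ℂ) *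
        (μ * (Real.exp (r * x) : ℂ)) ^ i := by
  rw [Fx, ev_aff_coeff, lineP_eval]

theorem Fx_cont (μ : ℂ) (r : ℕ) (a : Fin n → ℝ) (K : MvPolynomial (Fin (n + 1)) ℂ)
    (y : Fin n → ℂ) (i : ℕ) : Continuous fun x : ℝ => (ev y (Fx μ r a K x)).coeff i := by
  simp only [Fx_coeff]
  refine Continuous.mul ?_ ?_
  · exact (Polynomial.continuous _).comp Complex.continuous_ofReal
  · refine Continuous.pow ?_ _
    refine continuous_const.mul (Complex.continuous_ofReal.comp ?_)
    exact Real.continuous_exp.comp (continuous_const.mul continuous_id)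

theorem Fx_small (μ : ℂ) {r : ℕ} (hr : 1 ≤ r) (a : Fin n → ℝ)
    (K : MvPolynomial (Fin (n + 1)) ℂ) (y : Fin n → ℂ) {i : ℕ} (hi : 1 ≤ i) :
    Tendsto (fun x : ℝ => (ev y (Fx μ r a K x)).coeff i) atBot (𝓝 0) := by
  have hρ : 0 < (i : ℝ) * (r : ℝ) := by
    have h1 : (1 : ℝ) ≤ i := by exact_mod_cast hi
    have h2 : (1 : ℝ) ≤ r := by exact_mod_cast hr
    positivity
  have h1 := (poly_exp (lineP y (fun i => (a i : ℂ)) ((finSuccEquiv ℂ n K).coeff i)) hρ).const_mul
    (μ ^ i)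
  rw [mul_zero] at h1
  refine h1.congr fun x => ?_
  rw [Fx_coeff, mul_pow]
  have : (Real.exp ((i : ℝ) * r * x) : ℂ) = (Real.exp (r * x) : ℂ) ^ i := by
    rw [← Complex.ofReal_pow, ← Real.exp_nat_mul, mul_assoc]
  rw [this]
  ring

theorem crossing {μ : ℂ} {r : ℕ} (hr : 1 ≤ r) (a : Fin n → ℝ)
    {K : MvPolynomial (Fin (n + 1)) ℂ} {e D : ℕ} (he : 1 ≤ e)
    (h0 : (finSuccEquiv ℂ n K).coeff 0 ≠ 0) (hD : K.totalDegree ≤ D) {x0 : ℝ}
    (hx0 : lo e D (Fx μ r a K x0) < hi e D (Fx μ r a K x0)) :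
    ∃ x : ℝ, x < x0 ∧ lo e D (Fx μ r a K x) = hi e D (Fx μ r a K x) := by
  have hcl : Continuous fun x : ℝ => lo e D (Fx μ r a K x) :=
    continuous_finsetSum _ fun i _ => continuous_finsetSum _ fun k _ => (Fx_cont μ r a K _ i).norm
  have hch : Continuous fun x : ℝ => hi e D (Fx μ r a K x) :=
    continuous_finsetSum _ fun i _ => continuous_finsetSum _ fun k _ => (Fx_cont μ r a K _ i).norm
  have hhi : Tendsto (fun x : ℝ => hi e D (Fx μ r a K x)) atBot (𝓝 0) := by
    have h1 : Tendsto (fun x : ℝ => hi e D (Fx μ r a K x)) atBot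
        (𝓝 (∑ i ∈ Finset.Ico e (D + 1), ∑ k : Fin n → Fin (D + 1), (0 : ℝ))) := by
      refine tendsto_finsetSum _ fun i hi => tendsto_finsetSum _ fun k _ => ?_
      have := (Fx_small μ hr a K (gp k) (i := i) (he.trans (Finset.mem_Ico.1 hi).1)).norm
      rwa [norm_zero] at this
    simpa using h1
  have hdeg : ((finSuccEquiv ℂ n K).coeff 0).totalDegree ≤ D := by
    have := totalDegree_coeff_finSuccEquiv_add_le K 0 h0
    omega
  obtain ⟨k, hk⟩ := det (fun k : ℕ => (k : ℂ)) Nat.cast_injective h0 hdeg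
  have hQ : lineP (gp k) (fun i => (a i : ℂ)) ((finSuccEquiv ℂ n K).coeff 0) ≠ 0 := by
    intro h
    apply hk
    have h1 := lineP_eval (gp k) (fun i => (a i : ℂ)) ((finSuccEquiv ℂ n K).coeff 0) 0
    rw [h, Polynomial.eval_zero] at h1
    simp only [mul_zero, add_zero] at h1
    exact h1.symm
  obtain ⟨c, hc, hlow⟩ := poly_low _ hQ
  have hev : ∀ᶠ x : ℝ in atBot, hi e D (Fx μ r a K x) < lo e D (Fx μ r a K x) := by
    filter_upwards [hlow, hhi.eventually_lt_const hc] with x hx1 hx2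
    refine hx2.trans_le (hx1.trans ?_)
    have h1 : ‖(ev (gp k) (Fx μ r a K x)).coeff 0‖ ≤ lo e D (Fx μ r a K x) := by
      refine le_trans ?_ (Finset.single_le_sum
        (f := fun i => ∑ k : Fin n → Fin (D + 1), ‖(ev (gp k) (Fx μ r a K x)).coeff i‖)
        (fun i _ => Finset.sum_nonneg fun _ _ => norm_nonneg _)
        (Finset.mem_range.2 (Nat.lt_of_lt_of_le Nat.zero_lt_one he)))
      exact Finset.single_le_sum (f := fun k : Fin n → Fin (D + 1) =>
        ‖(ev (gp k) (Fx μ r a K x)).coeff 0‖) (fun _ _ => norm_nonneg _) (Finset.mem_univ k)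
    rw [Fx_coeff, pow_zero, mul_one] at h1
    exact h1
  obtain ⟨x1, hx1, hx1'⟩ := (hev.and (eventually_lt_atBot x0)).exists
  have hcont : Continuous fun x : ℝ => hi e D (Fx μ r a K x) - lo e D (Fx μ r a K x) :=
    hch.sub hcl
  have h2 := intermediate_value_Icc hx1'.le hcont.continuousOn
  obtain ⟨x, hx, hx'⟩ := h2 (show (0 : ℝ) ∈ _ from ⟨by linarith, by linarith⟩)
  simp only at hx'
  refine ⟨x, lt_of_le_of_ne hx.2 ?_, by linarith⟩
  rintro rfl
  linarith

theorem Fx_ne {μ : ℂ} {r : ℕ} (a : Fin n → ℝ) {K : MvPolynomial (Fin (n + 1)) ℂ}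
    (h0 : (finSuccEquiv ℂ n K).coeff 0 ≠ 0) (x : ℝ) : Fx μ r a K x ≠ 0 := by
  intro h
  apply h0
  refine MvPolynomial.funext fun y => ?_
  have h1 := ev_aff_coeff (μ * (Real.exp (r * x) : ℂ)) (fun i => (a i : ℂ) * (x : ℂ)) K
    (fun i => y i - (a i : ℂ) * (x : ℂ)) 0
  have h2 : bind₁ (aff (μ * (Real.exp (r * x) : ℂ)) fun i => (a i : ℂ) * (x : ℂ)) K = 0 := h
  rw [h2, pow_zero, mul_one] at h1
  simp only [sub_add_cancel] at h1
  rw [map_zero, ← h1]
  simp [ev]

theorem diff_eval {V : Set ℂ} {y : ℂ → Fin n → ℂ} (hy : ∀ i, DifferentiableOn ℂ (fun w => y w i) V)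
    (p : MvPolynomial (Fin n) ℂ) : DifferentiableOn ℂ (fun w => eval (y w) p) V := by
  induction p using MvPolynomial.induction_on with
  | C c => simp
  | add p q hp hq =>
    simp only [map_add]
    exact hp.add hq
  | mul_X p i hp =>
    simp only [map_mul, eval_X]
    exact hp.mul (hy i)

theorem eval_aeval_lin (l : Fin n → ℝ) (g : Polynomial ℂ) (x : Fin n → ℂ) :
    eval x (Polynomial.aeval (lin l) g) = g.eval (∑ i, (l i : ℂ) * x i) := by
  induction g using Polynomial.induction_on' with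
  | add p q hp hq => simp only [map_add, hp, hq, Polynomial.eval_add]
  | monomial k c => simp [Polynomial.aeval_monomial, eval_lin, MvPolynomial.algebraMap_eq]

/-- the exponential polynomial of the limit -/
theorem psi_sum {D : ℕ} {q : MvPolynomial (Fin (n + 1)) ℂ} (hq : q.totalDegree ≤ D) {r : ℕ}
    (hr : 1 ≤ r) (a : Fin n → ℝ) (y : Fin n → ℂ) (v : ℂ) :
    ∑ i ∈ Finset.range (D + 1), (lineP y (fun l => (a l : ℂ) / r)
      ((finSuccEquiv ℂ n q).coeff i)).eval v * Complex.exp ((i : ℂ) * v) =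
    eval (Fin.cons (Complex.exp (r * (v / r))) fun l => (a l : ℂ) * (v / r) + y l) q := by
  have hr0 : (r : ℂ) ≠ 0 := by
    have : r ≠ 0 := by omega
    exact_mod_cast this
  rw [← ev_eval, Polynomial.eval_eq_sum_range' (n := D + 1)]
  · refine Finset.sum_congr rfl fun i _ => ?_
    rw [lineP_eval, ev_coeff, mul_div_cancel₀ _ hr0, ← Complex.exp_nat_mul]
    congr 2
    congr 1
    funext l
    ring
  · refine Nat.lt_succ_of_le ?_
    calc (ev (fun l => (a l : ℂ) * (v / r) + y l) q).natDegree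
        ≤ (finSuccEquiv ℂ n q).natDegree := Polynomial.natDegree_map_le
      _ = degreeOf 0 q := natDegree_finSuccEquiv q
      _ ≤ q.totalDegree := degreeOf_le_totalDegree q 0
      _ ≤ D := hq

theorem exp_zero (h1 : S_exp) {D : ℕ} (QQ : ℕ → Polynomial ℂ) {i0 i1 : ℕ} (hi0 : i0 < D + 1)
    (hi1 : i1 < D + 1) (hne : i0 ≠ i1) (h0 : QQ i0 ≠ 0) (h1' : QQ i1 ≠ 0) :
    ∃ v : ℂ, ∑ i ∈ Finset.range (D + 1), (QQ i).eval v * Complex.exp ((i : ℂ) * v) = 0 := by
  obtain ⟨v, hv⟩ := h1 ((Finset.range (D + 1)).image fun i : ℕ => (i : ℤ))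
    (fun l => QQ l.toNat) i0 i1 (Finset.mem_image_of_mem _ (Finset.mem_range.2 hi0))
    (Finset.mem_image_of_mem _ (Finset.mem_range.2 hi1)) (by exact_mod_cast hne)
    (by simpa using h0) (by simpa using h1')
  refine ⟨v, ?_⟩
  rw [Finset.sum_image (fun i _ j _ hij => by exact_mod_cast hij)] at hv
  simpa using hv

theorem exp_not_zero (h1 : S_exp) {D : ℕ} (QQ : ℕ → Polynomial ℂ) {i0 i1 : ℕ} (hi0 : i0 < D + 1)
    (hi1 : i1 < D + 1) (hne : i0 ≠ i1) (h0 : QQ i0 ≠ 0) (h1' : QQ i1 ≠ 0)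
    (hall : ∀ v : ℂ, ∑ i ∈ Finset.range (D + 1), (QQ i).eval v * Complex.exp ((i : ℂ) * v) = 0) :
    False := by
  obtain ⟨v, hv⟩ := exp_zero h1 (D := D + 1) (fun i => if i = D + 1 then 1 else QQ i)
    (i0 := i0) (i1 := i1) (by omega) (by omega) hne
    (by rw [if_neg (by omega)]; exact h0) (by rw [if_neg (by omega)]; exact h1')
  rw [Finset.sum_range_succ] at hv
  have h2 : ∑ i ∈ Finset.range (D + 1), ((if i = D + 1 then (1 : Polynomial ℂ) else QQ i)).eval v *
      Complex.exp ((i : ℂ) * v) = 0 := by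
    rw [← hall v]
    refine Finset.sum_congr rfl fun i hi => ?_
    rw [if_neg (by have := Finset.mem_range.1 hi; omega)]
  rw [h2, zero_add, if_pos rfl, Polynomial.eval_one, one_mul] at hv
  exact Complex.exp_ne_zero _ hv

theorem t_cross (h1 : S_exp) (h2 : S_unif) (h3 : S_cpt) : S_cross := by
  intro n P m v0 g M c s hmv hP hg hgs hconv a b h c0 C0 r μ hh hhb hma hmb hr hμ hη
  by_contra hno
  push Not at hno
  have hr0 : (r : ℂ) ≠ 0 := by
    have : r ≠ 0 := by omega
    exact_mod_cast this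
  have hmvC : ∑ i, (m i : ℂ) * (v0 i : ℂ) = 1 := by exact_mod_cast congrArg (Int.cast (R := ℂ)) hmv
  have hmaC : ∑ i, (m i : ℂ) * (a i : ℂ) = 0 := by
    exact_mod_cast congrArg (Complex.ofReal) hma
  obtain ⟨d, hd⟩ := hconv.1
  set p : ℕ → MvPolynomial (Fin n) ℂ := fun j => C (c j) * trZ (M j) P with hp
  set G : MvPolynomial (Fin n) ℂ := Polynomial.aeval (lin fun i => (m i : ℝ)) g with hG
  set g1 : Polynomial ℂ := g.comp (Polynomial.X + Polynomial.C s) with hg1
  have hg1e : ∀ t, g1.eval t = g.eval (t + s) := fun t => by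
    rw [hg1, Polynomial.eval_comp]; simp
  have hg10 : g1 ≠ 0 := by
    intro h0
    apply hg
    refine Polynomial.funext fun t => ?_
    have := hg1e (t - s)
    rw [h0, sub_add_cancel] at this
    rw [← this]
    simp
  set e : ℕ := g1.natTrailingDegree with he
  have he1 : 1 ≤ e := by
    by_contra hcon
    have he0 : e = 0 := by omega
    have h4 := Polynomial.trailingCoeff_nonzero_iff_nonzero.2 hg10
    rw [Polynomial.trailingCoeff, ← he, he0, Polynomial.coeff_zero_eq_eval_zero, hg1e, zero_add,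
      hgs] at h4
    exact h4 rfl
  have hlt : ∀ i, i < e → g1.coeff i = 0 := fun i hi =>
    Polynomial.coeff_eq_zero_of_lt_natTrailingDegree hi
  have hge : g1.coeff e ≠ 0 := by
    have h4 := Polynomial.trailingCoeff_nonzero_iff_nonzero.2 hg10
    rwa [Polynomial.trailingCoeff, ← he] at h4
  set D : ℕ := max d e with hD
  have hdD : d ≤ D := le_max_left _ _
  have heD : e ≤ D := le_max_right _ _
  -- the polynomials in one more variable
  set K : ℕ → MvPolynomial (Fin (n + 1)) ℂ := fun j => bind₁ (sub b m v0) (p j) with hK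
  have hKd : ∀ j, (K j).totalDegree ≤ d := fun j =>
    (totalDegree_bind₁_le _ (sub_deg b m v0) _).trans (hd j)
  have hKe : ∀ j t (y : Fin n → ℂ), eval (Fin.cons t y) (K j) =
      eval (fun i => b i + y i + (v0 i : ℂ) * (t - ∑ k, (m k : ℂ) * y k)) (p j) :=
    fun j t y => eval_sub b m v0 (p j) t y
  have hKinf : ∀ y : Fin n → ℂ, ev y (bind₁ (sub b m v0) G) = g1 := by
    intro y
    refine Polynomial.funext fun t => ?_
    rw [ev_eval, eval_sub, hG, eval_aeval_lin, hg1e]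
    congr 1
    set σ : ℂ := ∑ k, (m k : ℂ) * y k with hσ
    have e1 : ∑ i, (((m i : ℝ) : ℂ)) * (b i + y i + (v0 i : ℂ) * (t - σ)) =
        ∑ i, (m i : ℂ) * b i + σ + (∑ i, (m i : ℂ) * (v0 i : ℂ)) * (t - σ) := by
      rw [hσ, Finset.sum_mul, ← Finset.sum_add_distrib, ← Finset.sum_add_distrib]
      refine Finset.sum_congr rfl fun i _ => ?_
      push_cast
      ring
    rw [e1, hmb, hmvC]
    ring
  -- step A
  have hA : ∀ x : ℝ, ∃ j, lo e D (Fx μ r a (K j) x) < hi e D (Fx μ r a (K j) x) := by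
    intro x
    set κ : ℂ := μ * (Real.exp (r * x) : ℂ) with hκ
    have hκ0 : κ ≠ 0 := mul_ne_zero hμ (by exact_mod_cast (Real.exp_pos _).ne')
    set T : MvPolynomial (Fin n) ℂ →ₗ[ℂ] MvPolynomial (Fin (n + 1)) ℂ :=
      (bind₁ (aff κ fun i => (a i : ℂ) * (x : ℂ))).toLinearMap.comp
        (bind₁ (sub b m v0)).toLinearMap with hT
    have hco : ∀ (y : Fin n → ℂ) (i : ℕ), (ev y (T G)).coeff i = g1.coeff i * κ ^ i := by
      intro y i
      show (ev y (bind₁ (aff κ fun i => (a i : ℂ) * (x : ℂ)) (bind₁ (sub b m v0) G))).coeff i = _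
      rw [ev_aff, Polynomial.comp_C_mul_X_coeff, hKinf]
    have h4 : lo e D (T G) = 0 := by
      refine Finset.sum_eq_zero fun i hi => Finset.sum_eq_zero fun k _ => ?_
      rw [hco, hlt i (Finset.mem_range.1 hi), zero_mul, norm_zero]
    have h5 : 0 < hi e D (T G) := by
      have h6 : 0 < ‖(ev (gp (fun _ => (0 : Fin (D + 1)))) (T G)).coeff e‖ := by
        rw [hco, norm_pos_iff]
        exact mul_ne_zero hge (pow_ne_zero _ hκ0)
      refine lt_of_lt_of_le h6 (le_trans ?_ (Finset.single_le_sum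
        (f := fun i => ∑ k : Fin n → Fin (D + 1), ‖(ev (gp k) (T G)).coeff i‖)
        (fun i _ => Finset.sum_nonneg fun _ _ => norm_nonneg _)
        (Finset.mem_Ico.2 ⟨le_refl e, by omega⟩)))
      exact Finset.single_le_sum (f := fun k : Fin n → Fin (D + 1) =>
        ‖(ev (gp k) (T G)).coeff e‖) (fun _ _ => norm_nonneg _) (Finset.mem_univ _)
    have h6 := (lo_tendsto hconv T e D)
    have h7 := (hi_tendsto hconv T e D)
    rw [h4] at h6
    have h8 := (h6.eventually_lt_const (half_pos h5)).and (h7.eventually_const_lt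
      (show hi e D (T G) / 2 < hi e D (T G) by linarith))
    obtain ⟨j, hj1, hj2⟩ := h8.exists
    exact ⟨j, hj1.trans hj2⟩
  choose jj hjj using fun k : ℕ => hA (-(k : ℝ))
  -- step B
  have hcne : ∀ k, c (jj k) ≠ 0 := by
    intro k hc
    have h4 := hjj k
    have h5 : p (jj k) = 0 := by rw [hp]; simp [hc]
    have h6 : Fx μ r a (K (jj k)) (-(k : ℝ)) = 0 := by
      rw [Fx, hK]
      simp [h5]
    rw [h6] at h4
    have h7 : hi e D (0 : MvPolynomial (Fin (n + 1)) ℂ) = 0 := by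
      refine Finset.sum_eq_zero fun i _ => Finset.sum_eq_zero fun k _ => ?_
      simp [ev]
    rw [h7] at h4
    exact absurd (lo_nonneg e D 0) (not_le.2 h4)
  have hK0 : ∀ k, (finSuccEquiv ℂ n (K (jj k))).coeff 0 ≠ 0 := by
    intro k h0
    obtain ⟨x, hx1, hx2⟩ := hP (∑ i, (m i : ℂ) * b i +
      ∑ i, (m i : ℂ) * (2 * Real.pi * Complex.I * (M (jj k) i : ℂ)))
    set y : Fin n → ℂ := fun i => x i - 2 * Real.pi * Complex.I * (M (jj k) i : ℂ) - b i with hy
    have hmy : ∑ i, (m i : ℂ) * y i = 0 := by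
      have : ∑ i, (m i : ℂ) * y i = ∑ i, (m i : ℂ) * x i -
          ∑ i, (m i : ℂ) * (2 * Real.pi * Complex.I * (M (jj k) i : ℂ)) -
          ∑ i, (m i : ℂ) * b i := by
        rw [← Finset.sum_sub_distrib, ← Finset.sum_sub_distrib]
        refine Finset.sum_congr rfl fun i _ => ?_
        rw [hy]
        ring
      rw [this, hx1]
      ring
    have h4 : eval (Fin.cons 0 y) (K (jj k)) = c (jj k) * eval x P := by
      rw [hKe, hmy, hp]
      simp only [map_mul, eval_C, trZ, eval_tr]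
      congr 2
      congr 1
      funext i
      rw [hy]
      push_cast
      ring
    have h5 : eval (Fin.cons 0 y) (K (jj k)) = 0 := by
      rw [← ev_eval, ← Polynomial.coeff_zero_eq_eval_zero, ev_coeff, h0, map_zero]
    rw [h5] at h4
    exact mul_ne_zero (hcne k) hx2 h4.symm
  -- step C
  have hC : ∀ k : ℕ, ∃ x : ℝ, x < -(k : ℝ) ∧
      lo e D (Fx μ r a (K (jj k)) x) = hi e D (Fx μ r a (K (jj k)) x) := fun k =>
    crossing hr a he1 (hK0 k) ((hKd _).trans hdD) (hjj k)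
  choose xx hxx1 hxx2 using hC
  -- compactness
  obtain ⟨φ, hφ, c', q, hc', hq0, hqd, hqc⟩ := h3 (n + 1) D (fun k => Fx μ r a (K (jj k)) (xx k))
    (fun k => ((totalDegree_bind₁_le _ (aff_deg _ _) _).trans (hKd _)).trans hdD)
    (fun k => Fx_ne a (hK0 k) (xx k))
  have hlh : lo e D q = hi e D q := by
    have h4 := lo_tendsto hqc LinearMap.id e D
    have h5 := hi_tendsto hqc LinearMap.id e D
    simp only [LinearMap.id_apply] at h4 h5
    refine tendsto_nhds_unique h4 (h5.congr fun k => ?_)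
    rw [lo_smul, hi_smul, hxx2]
  have hpos := lo_hi_pos hq0 hqd (e := e)
  obtain ⟨i0, hi0e, hi0⟩ := exists_of_lo (e := e) (D := D) (F := q) (by linarith)
  obtain ⟨i1, hi1e, hi1D, hi1⟩ := exists_of_hi (e := e) (D := D) (F := q) (by linarith)
  -- the choice of the translation
  have hτ : Function.Injective fun k : ℕ => 2 * Real.pi * Complex.I * (k : ℂ) := by
    intro k k' hkk
    have h4 : (2 * Real.pi * Complex.I : ℂ) ≠ 0 := by
      simp [Real.pi_ne_zero]
    exact_mod_cast mul_left_cancel₀ h4 hkk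
  obtain ⟨kk, hkk⟩ := det (fun k : ℕ => 2 * Real.pi * Complex.I * (k : ℂ)) hτ
    (mul_ne_zero hi0 hi1) (le_refl _)
  rw [map_mul] at hkk
  obtain ⟨hkk0, hkk1⟩ := mul_ne_zero_iff.1 hkk
  set ys : Fin n → ℂ := fun i => 2 * Real.pi * Complex.I * (((kk i : ℕ) : ℂ)) with hys
  set QQ : ℕ → Polynomial ℂ := fun i => lineP ys (fun l => (a l : ℂ) / r)
    ((finSuccEquiv ℂ n q).coeff i) with hQQ
  have hQQ0 : ∀ i, eval ys ((finSuccEquiv ℂ n q).coeff i) ≠ 0 → QQ i ≠ 0 := by
    intro i h4 h5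
    apply h4
    have h6 := lineP_eval ys (fun l => (a l : ℂ) / r) ((finSuccEquiv ℂ n q).coeff i) 0
    have h7 : lineP ys (fun l => (a l : ℂ) / r) ((finSuccEquiv ℂ n q).coeff i) = 0 := h5
    rw [h7, Polynomial.eval_zero] at h6
    simp only [mul_zero, add_zero] at h6
    exact h6.symm
  have hne : i0 ≠ i1 := by omega
  obtain ⟨v', hv'⟩ := exp_zero h1 (D := D) QQ (by omega) hi1D hne (hQQ0 i0 hkk0) (hQQ0 i1 hkk1)
  set Ψ : ℂ → ℂ := fun v => eval (Fin.cons (Complex.exp (r * v)) fun l => (a l : ℂ) * v + ys l) q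
    with hΨ
  have hΨs : ∀ v, ∑ i ∈ Finset.range (D + 1), (QQ i).eval v * Complex.exp ((i : ℂ) * v) =
      Ψ (v / r) := fun v => psi_sum hqd hr a ys v
  set vs : ℂ := v' / r with hvs
  have hΨvs : Ψ vs = 0 := by rw [← hΨs, hv']
  have hΨd : Differentiable ℂ Ψ := by
    rw [← differentiableOn_univ]
    refine diff_eval (fun i => ?_) q
    refine Fin.cases ?_ (fun l => ?_) i
    · simp only [Fin.cons_zero]
      fun_prop
    · simp only [Fin.cons_succ]
      fun_prop
  have hΨne : ¬ ∀ᶠ z in 𝓝 vs, Ψ z = 0 := by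
    intro hev
    have h4 : AnalyticOnNhd ℂ Ψ Set.univ := fun z _ => hΨd.analyticAt z
    have h5 : AnalyticOnNhd ℂ (fun _ : ℂ => (0 : ℂ)) Set.univ := fun z _ => analyticAt_const
    have h6 := h4.eqOn_of_preconnected_of_eventuallyEq h5 isPreconnected_univ (Set.mem_univ vs) hev
    refine exp_not_zero h1 (D := D) QQ (by omega) hi1D hne (hQQ0 i0 hkk0) (hQQ0 i1 hkk1) ?_
    intro v
    rw [hΨs]
    exact h6 (Set.mem_univ _)
  apply hΨne
  -- shift
  obtain ⟨k0, hk0⟩ := exists_nat_gt (vs.re + 1 - c0)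
  set ψ : ℕ → ℕ := fun k => φ (k + k0) with hψ
  have hψk : ∀ k, k + k0 ≤ ψ k := fun k => hφ.id_le (k + k0)
  have hxk : ∀ k, xx (ψ k) < -((k : ℝ) + k0) := by
    intro k
    have h4 := hxx1 (ψ k)
    have h5 : ((k + k0 : ℕ) : ℝ) ≤ (ψ k : ℝ) := by exact_mod_cast hψk k
    push_cast at h5
    linarith
  have hmem : ∀ k, ∀ v ∈ Metric.ball vs 1, (xx (ψ k) : ℂ) + v ∈ LH c0 := by
    intro k v hv
    rw [Metric.mem_ball, dist_eq_norm] at hv
    have h4 : (v - vs).re ≤ ‖v - vs‖ := Complex.re_le_norm _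
    rw [Complex.sub_re] at h4
    show ((xx (ψ k) : ℂ) + v).re < c0
    rw [Complex.add_re, Complex.ofReal_re]
    have h5 := hxk k
    have h6 : (0 : ℝ) ≤ k := Nat.cast_nonneg k
    linarith
  have hC0 : 0 ≤ C0 := by
    have h4 := hmem 0 vs (Metric.mem_ball_self one_pos)
    have h5 := (norm_nonneg _).trans (hhb _ h4)
    exact nonneg_of_mul_nonneg_left h5 (Real.exp_pos _)
  set η : ℂ → ℂ := fun w => ∑ i, (m i : ℂ) * h w i with hηdef
  set Y : ℕ → ℂ → Fin (n + 1) → ℂ := fun k v =>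
    Fin.cons (η (xx (ψ k) + v) / (μ * (Real.exp (r * xx (ψ k)) : ℂ)))
      fun l => (a l : ℂ) * v + h (xx (ψ k) + v) l + ys l with hY
  set Y0 : ℂ → Fin (n + 1) → ℂ := fun v =>
    Fin.cons (Complex.exp (r * v)) fun l => (a l : ℂ) * v + ys l with hY0
  have hqc' : Conv (fun k => C (c' (k + k0)) * Fx μ r a (K (jj (ψ k))) (xx (ψ k))) q := by
    obtain ⟨⟨d', hd'⟩, hco⟩ := hqc
    refine ⟨⟨d', fun k => hd' (k + k0)⟩, fun mm => ?_⟩
    exact (hco mm).comp (tendsto_add_atTop_nat k0)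
  have hexpk : Tendsto (fun k => Real.exp (xx (ψ k))) atTop (𝓝 0) := by
    refine Real.tendsto_exp_atBot.comp ?_
    refine tendsto_atBot_mono (fun k => (hxk k).le) ?_
    have : Tendsto (fun k : ℕ => (k : ℝ) + k0) atTop atTop :=
      tendsto_atTop_add_const_right _ _ tendsto_natCast_atTop_atTop
    exact tendsto_neg_atTop_atBot.comp this
  have hYlim : TendstoLocallyUniformlyOn Y Y0 atTop (Metric.ball vs 1) := by
    refine TendstoUniformlyOn.tendstoLocallyUniformlyOn ?_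
    rw [Metric.tendstoUniformlyOn_iff]
    intro ε hε
    set C1 : ℝ := C0 * Real.exp ((r + 1) * (vs.re + 1)) / ‖μ‖ + C0 * Real.exp (vs.re + 1) with hC1
    have hμn : 0 < ‖μ‖ := norm_pos_iff.2 hμ
    have h4 : Tendsto (fun k => C1 * Real.exp (xx (ψ k))) atTop (𝓝 0) := by
      have := hexpk.const_mul C1
      rwa [mul_zero] at this
    filter_upwards [h4.eventually_lt_const hε] with k hk v hv
    have hw := hmem k v hv
    have hvre : v.re ≤ vs.re + 1 := by
      rw [Metric.mem_ball, dist_eq_norm] at hv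
      have h5 : (v - vs).re ≤ ‖v - vs‖ := Complex.re_le_norm _
      rw [Complex.sub_re] at h5
      linarith
    have hwre : ((xx (ψ k) : ℂ) + v).re = xx (ψ k) + v.re := by
      rw [Complex.add_re, Complex.ofReal_re]
    rw [dist_pi_lt_iff hε]
    intro i
    refine Fin.cases ?_ (fun l => ?_) i
    · simp only [hY, hY0, Fin.cons_zero]
      rw [dist_comm, dist_eq_norm]
      have hE : ((Real.exp (r * xx (ψ k)) : ℝ) : ℂ) ≠ 0 := by
        exact_mod_cast (Real.exp_pos _).ne'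
      have h5 : η (xx (ψ k) + v) / (μ * (Real.exp (r * xx (ψ k)) : ℂ)) - Complex.exp (r * v) =
          (η (xx (ψ k) + v) - μ * Complex.exp (r * ((xx (ψ k) : ℂ) + v))) /
            (μ * (Real.exp (r * xx (ψ k)) : ℂ)) := by
        have h6 : Complex.exp (r * ((xx (ψ k) : ℂ) + v)) =
            (Real.exp (r * xx (ψ k)) : ℂ) * Complex.exp (r * v) := by
          rw [mul_add, Complex.exp_add]
          push_cast
          rfl
        rw [h6]
        field_simp
      rw [h5, norm_div, norm_mul, Complex.norm_real, Real.norm_eq_abs,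
        abs_of_pos (Real.exp_pos _)]
      have h6 := hη _ hw
      rw [hwre] at h6
      refine lt_of_le_of_lt ?_ hk
      rw [div_le_iff₀ (by positivity)]
      refine h6.trans ?_
      have h7 : Real.exp ((r + 1) * (xx (ψ k) + v.re)) ≤
          Real.exp ((r + 1) * (vs.re + 1)) * (Real.exp (xx (ψ k)) * Real.exp (r * xx (ψ k))) := by
        rw [← Real.exp_add, ← Real.exp_add, Real.exp_le_exp]
        have : 0 ≤ (r : ℝ) + 1 := by positivity
        nlinarith
      calc C0 * Real.exp ((r + 1) * (xx (ψ k) + v.re))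
          ≤ C0 * (Real.exp ((r + 1) * (vs.re + 1)) *
            (Real.exp (xx (ψ k)) * Real.exp (r * xx (ψ k)))) := mul_le_mul_of_nonneg_left h7 hC0
        _ = C0 * Real.exp ((r + 1) * (vs.re + 1)) / ‖μ‖ * Real.exp (xx (ψ k)) *
            (‖μ‖ * Real.exp (r * xx (ψ k))) := by
            field_simp
        _ ≤ C1 * Real.exp (xx (ψ k)) * (‖μ‖ * Real.exp (r * xx (ψ k))) := by
            refine mul_le_mul_of_nonneg_right (mul_le_mul_of_nonneg_right ?_
              (Real.exp_pos _).le) (by positivity)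
            rw [hC1]
            have : 0 ≤ C0 * Real.exp (vs.re + 1) := by positivity
            linarith
    · simp only [hY, hY0, Fin.cons_succ]
      rw [dist_comm, dist_eq_norm]
      have h5 : (a l : ℂ) * v + h (xx (ψ k) + v) l + ys l - ((a l : ℂ) * v + ys l) =
          h (xx (ψ k) + v) l := by ring
      rw [h5]
      refine lt_of_le_of_lt ((norm_le_pi_norm _ l).trans (hhb _ hw)) ?_
      rw [hwre]
      refine lt_of_le_of_lt ?_ hk
      have h7 : Real.exp (xx (ψ k) + v.re) ≤ Real.exp (vs.re + 1) * Real.exp (xx (ψ k)) := by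
        rw [← Real.exp_add, Real.exp_le_exp]
        linarith
      calc C0 * Real.exp (xx (ψ k) + v.re) ≤ C0 * (Real.exp (vs.re + 1) * Real.exp (xx (ψ k))) :=
            mul_le_mul_of_nonneg_left h7 hC0
        _ = C0 * Real.exp (vs.re + 1) * Real.exp (xx (ψ k)) := by ring
        _ ≤ C1 * Real.exp (xx (ψ k)) := by
            refine mul_le_mul_of_nonneg_right ?_ (Real.exp_pos _).le
            rw [hC1]
            have : 0 ≤ C0 * Real.exp ((r + 1) * (vs.re + 1)) / ‖μ‖ := by positivity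
            linarith
  have hlim := h2 (n + 1) _ q hqc' (Metric.ball vs 1) Y Y0 Metric.isOpen_ball (by
    refine continuousOn_pi.2 fun i => ?_
    refine Fin.cases ?_ (fun l => ?_) i
    · simp only [hY0, Fin.cons_zero]
      fun_prop
    · simp only [hY0, Fin.cons_succ]
      fun_prop) hYlim
  -- Hurwitz
  refine Pool.Agent.Helper202.Riemann.hurwitz Metric.isOpen_ball ?_ hlim ?_
    (Metric.mem_ball_self one_pos) hΨvs
  · intro k
    refine diff_eval (fun i => ?_) _
    have h4 : ∀ l, DifferentiableOn ℂ (fun v => h (xx (ψ k) + v) l) (Metric.ball vs 1) := by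
      intro l
      refine (hh l).comp (by fun_prop) ?_
      intro v hv
      exact hmem k v hv
    refine Fin.cases ?_ (fun l => ?_) i
    · simp only [hY, Fin.cons_zero]
      refine DifferentiableOn.div_const ?_ _
      exact DifferentiableOn.fun_sum fun i _ => (h4 i).const_mul _
    · simp only [hY, Fin.cons_succ]
      exact (((differentiable_id.const_mul _).differentiableOn).add (h4 l)).add_const _
  · intro k v hv
    have hw := hmem k v hv
    set w : ℂ := (xx (ψ k) : ℂ) + v with hwdef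
    have hE : (μ * (Real.exp (r * xx (ψ k)) : ℂ)) ≠ 0 :=
      mul_ne_zero hμ (by exact_mod_cast (Real.exp_pos _).ne')
    rw [map_mul, eval_C, Fx]
    simp only [hY]
    rw [eval_aff, mul_div_cancel₀ _ hE, hKe]
    refine mul_ne_zero (hc' _) ?_
    set S : ℤ := ∑ i, m i * (kk i : ℕ) with hS
    have h4 : ∑ l, (m l : ℂ) * ((a l : ℂ) * v + h w l + ys l + (a l : ℂ) * (xx (ψ k) : ℂ)) =
        η w + 2 * Real.pi * Complex.I * (S : ℂ) := by
      have h5 : ∑ l, (m l : ℂ) * ((a l : ℂ) * v + h w l + ys l + (a l : ℂ) * (xx (ψ k) : ℂ)) =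
          (∑ l, (m l : ℂ) * (a l : ℂ)) * w + ∑ l, (m l : ℂ) * h w l +
            2 * Real.pi * Complex.I * ∑ l, (m l : ℂ) * (((kk l : ℕ) : ℂ)) := by
        rw [Finset.sum_mul, Finset.mul_sum, ← Finset.sum_add_distrib, ← Finset.sum_add_distrib]
        refine Finset.sum_congr rfl fun l _ => ?_
        rw [hys, hwdef]
        ring
      rw [h5, hmaC, hS]
      push_cast
      ring
    rw [h4]
    have h5 := hno w hw (fun i => (kk i : ℕ) - v0 i * S + M (jj (ψ k)) i)
    have h6 : eval (fun i => b i + ((a i : ℂ) * v + h w i + ys i + (a i : ℂ) * (xx (ψ k) : ℂ)) +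
        (v0 i : ℂ) * (η w - (η w + 2 * Real.pi * Complex.I * (S : ℂ)))) (p (jj (ψ k))) =
        c (jj (ψ k)) * eval (pt a b h w fun i => (kk i : ℕ) - v0 i * S + M (jj (ψ k)) i) P := by
      rw [hp]
      simp only [map_mul, eval_C, trZ, eval_tr]
      congr 2
      congr 1
      funext i
      rw [hys, hwdef]
      simp only [pt]
      push_cast
      ring
    rw [h6]
    exact mul_ne_zero (hcne _) h5

end Pool.Agent.W177.EC
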